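import Pool.Agent.Helper57.ZF.Goals

/-!
Project ZF, packet DBL: finite-dimensional normed spaces are doubling (packing form).
-/

set_option autoImplicit false

namespace Pool.Agent.Helper89.ZF

open Pool.Agent.Helper57.ZF

theorem DBL : G_DBL := by
  intro E _ _ _ Λ
  have : ProperSpace E := FiniteDimensional.proper_real E
  have hc : IsCompact (Metric.closedBall (0 : E) Λ) := isCompact_closedBall 0 Λ
  obtain ⟨t, htf, ht⟩ := Metric.totallyBounded_iff.mp hc.totallyBounded (1 / 2) (by norm_num)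
  refine ⟨htf.toFinset.card, fun r c s hr hball hsep => ?_⟩
  have key : ∀ x ∈ s, ∃ y ∈ t, dist (r⁻¹ • (x - c)) y < 1 / 2 := by
    intro x hx
    have hx1 : r⁻¹ • (x - c) ∈ Metric.closedBall (0 : E) Λ := by
      rw [Metric.mem_closedBall, dist_zero_right, norm_smul, norm_inv, Real.norm_eq_abs,
        abs_of_pos hr, ← dist_eq_norm, inv_mul_le_iff₀ hr, mul_comm]
      exact hball x hx
    have hx2 := ht hx1
    simp only [Set.mem_iUnion, Metric.mem_ball, exists_prop] at hx2
    exact hx2
  classical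
  choose! f hf1 hf2 using key
  refine Finset.card_le_card_of_injOn f (fun x hx => ?_) ?_
  · simpa using hf1 x hx
  · intro x hx y hy hxy
    by_contra hne
    have h1 := hf2 x hx
    have h2 := hf2 y hy
    rw [hxy] at h1
    have h3 : dist (r⁻¹ • (x - c)) (r⁻¹ • (y - c)) < 1 := by
      calc dist (r⁻¹ • (x - c)) (r⁻¹ • (y - c))
          ≤ dist (r⁻¹ • (x - c)) (f y) + dist (r⁻¹ • (y - c)) (f y) := dist_triangle_right _ _ _
        _ < 1 / 2 + 1 / 2 := add_lt_add h1 h2
        _ = 1 := by norm_num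
    have h4 : dist (r⁻¹ • (x - c)) (r⁻¹ • (y - c)) = r⁻¹ * dist x y := by
      rw [dist_smul₀, norm_inv, Real.norm_eq_abs, abs_of_pos hr, dist_sub_right]
    rw [h4, inv_mul_lt_iff₀ hr, mul_one] at h3
    exact absurd (hsep x hx y hy hne) (not_le.mpr h3)

end Pool.Agent.Helper89.ZF
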